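import Pool.Agent.Lib.MP_340815_al.H64.Data
import Pool.Agent.Lib.MP_340815_al.H75.Raag

/-!
# MP_340815_al: the checker functions and the kernel computations
-/

set_option autoImplicit false

namespace Pool.Agent.MP_340815_al.Cert

open Pool.Agent.MP_340815_al.H75

/-- byte `k` of a packed table -/
def byte (T k : ℕ) : ℕ := Nat.land (Nat.shiftRight T (8 * k)) 255

/-- vertex of a half edge -/
def src (h : ℕ) : ℕ := byte srcTab h
/-- edge of a half edge -/
def dst (h : ℕ) : ℕ := 10 + h / 2
/-- minimum, kernel friendly -/
def mn (b c : ℕ) : ℕ := bif Nat.ble b c then b else c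
/-- maximum, kernel friendly -/
def mx (b c : ℕ) : ℕ := bif Nat.ble b c then c else b
/-- index of a move -/
def midx (h b c : ℕ) : ℕ := 529 * h + 23 * mn b c + mx b c
/-- label number -/
def labn (h b c : ℕ) : ℕ := byte labTab (midx h b c)
/-- level -/
def lev (h b c : ℕ) : ℕ := byte levTab (midx h b c)
/-- reason -/
def rea (h b c : ℕ) : ℕ := byte reaTab (midx h b c)
/-- word number `k` -/
def word (k : ℕ) : List ℕ :=
  unpack 10 (Nat.land (Nat.shiftRight wordTab (64 * k)) 18446744073709551615)
/-- the word of a move -/
def lw (h b c : ℕ) : List ℕ := word (labn h b c)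

/-- the commutation table of the right-angled Artin group -/
def raagC (i j : ℕ) : Bool :=
  bif Nat.ble i 9 then bif Nat.ble j 9 then
    Nat.beq (Nat.land (Nat.shiftRight raagMask (10 * i + j)) 1) 1 else false else false

/-- the commutation table of the free group -/
def freeC (i j : ℕ) : Bool := Nat.beq i j

/-- the two sides of the square `(h, k, y)` -/
def sqL (h k y : ℕ) : List ℕ := lw h (src k) y ++ lw k (dst h) y
/-- the two sides of the square `(h, k, y)` -/
def sqR (h k y : ℕ) : List ℕ := lw k (src h) y ++ lw h (dst k) y

/-- bounded universal quantifier -/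
def allB (f : ℕ → Bool) : ℕ → Bool
  | 0 => true
  | n + 1 => bif f n then allB f n else false

theorem allB_spec {f : ℕ → Bool} {n : ℕ} (h : allB f n = true) : ∀ k, k < n → f k = true := by
  induction n with
  | zero => intro k hk; omega
  | succ n ih =>
    intro k hk
    unfold allB at h
    cases hf : f n with
    | false => rw [hf] at h; simp at h
    | true =>
      rw [hf] at h
      simp only [cond_true] at h
      rcases Nat.lt_succ_iff_lt_or_eq.1 hk with h' | rfl
      · exact ih h k h'
      · exact hf

/-- the square `(h, k, y)` is a square of the complex -/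
def vs (h k y : ℕ) : Bool :=
  bif Nat.beq (src h) (src k) then false else
    bif Nat.beq y (src h) then false else
      bif Nat.beq y (src k) then false else true

/-- check of one square in the right-angled Artin group -/
def chkSq (h k y : ℕ) : Bool :=
  bif vs h k y then eqW raagC (sqL h k y) (sqR h k y) else true

/-- is `(h; b, c)` a move -/
def vm (h b c : ℕ) : Bool :=
  bif Nat.beq b (src h) then false else
    bif Nat.beq c (src h) then false else
      bif Nat.beq b c then Nat.ble 10 b else true

/-- generator moves -/
def gh (i : ℕ) : ℕ := byte ghTab i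
/-- generator moves -/
def gb (i : ℕ) : ℕ := byte gbTab i
/-- generator moves -/
def gc (i : ℕ) : ℕ := byte gcTab i

/-- check of a generator move: the word is `[2 i]` and `(h, b, c)` is the `i`-th generator move -/
def chkGen (h b c : ℕ) : List ℕ → Bool
  | [] => false
  | [x] => bif Nat.beq (x % 2) 0 then bif Nat.beq (gh (x / 2)) h then
      bif Nat.beq (gb (x / 2)) b then Nat.beq (gc (x / 2)) c else false else false else false
  | _ :: _ :: _ => false

/-- check of a derived move, first role: `(h; src k, y)` -/
def chkA (h k y L : ℕ) : Bool :=
  bif vs h k y then bif Nat.blt (lev k (dst h) y) L then bif Nat.blt (lev k (src h) y) L then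
    bif Nat.blt (lev h (dst k) y) L then eqW freeC (sqL h k y) (sqR h k y)
    else false else false else false else false

/-- check of a derived move, second role: `(h; dst k, y)` -/
def chkB (h k y L : ℕ) : Bool :=
  bif vs h k y then bif Nat.blt (lev k (dst h) y) L then bif Nat.blt (lev k (src h) y) L then
    bif Nat.blt (lev h (src k) y) L then eqW freeC (sqL h k y) (sqR h k y)
    else false else false else false else false

/-- check of the derivation of a move, `b ≤ c` -/
def chkDer (h b c r : ℕ) : Bool :=
  bif Nat.blt ((r - 2) / 4) 26 then
    bif Nat.beq ((r - 2) % 4) 0 then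
      bif Nat.beq (src ((r - 2) / 4)) b then chkA h ((r - 2) / 4) c (lev h b c) else false
    else bif Nat.beq ((r - 2) % 4) 1 then
      bif Nat.beq (src ((r - 2) / 4)) c then chkA h ((r - 2) / 4) b (lev h b c) else false
    else bif Nat.beq ((r - 2) % 4) 2 then
      bif Nat.beq (dst ((r - 2) / 4)) b then chkB h ((r - 2) / 4) c (lev h b c) else false
    else
      bif Nat.beq (dst ((r - 2) / 4)) c then chkB h ((r - 2) / 4) b (lev h b c) else false
  else false

/-- check of a move, `b ≤ c` -/
def chkMove (h b c : ℕ) : Bool :=
  bif vm h b c then
    bif Nat.beq (rea h b c) 0 then Nat.beq (labn h b c) 0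
    else bif Nat.beq (rea h b c) 1 then chkGen h b c (lw h b c)
    else chkDer h b c (rea h b c)
  else true

theorem all_squares : allB (fun h => allB (fun k => allB (fun y => chkSq h k y) 23) 26) 26 = true := by
  decide +kernel

theorem all_moves :
    allB (fun h => allB (fun c => allB (fun b => chkMove h b c) (c + 1)) 23) 26 = true := by
  decide +kernel

end Pool.Agent.MP_340815_al.Cert
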