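import Pool.Agent.Lib.MP_340815_al.H64.Elim

/-!
# MP_340815_al: the commutation relations of the certificate
-/

set_option autoImplicit false

namespace Pool.Agent.MP_340815_al.Cert

open Pool.Agent.MP_340815_al.H75

/-- is the word the single letter `x` -/
def isLet (x : ℕ) : List ℕ → Bool
  | [] => false
  | [y] => Nat.beq y x
  | _ :: _ :: _ => false

theorem isLet_iff {x : ℕ} {w : List ℕ} (h : isLet x w = true) : w = [x] := by
  match w, h with
  | [], h => simp [isLet] at h
  | [y], h => rw [Nat.eq_of_beq_eq_true h]
  | _ :: _ :: _, h => simp [isLet] at h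

/-- check of a commutation relation -/
def chkComm (i j h k y : ℕ) : Bool :=
  bif Nat.blt h 26 then bif Nat.blt k 26 then bif Nat.blt y 23 then bif vs h k y then
    bif isLet (2 * i) (lw h (src k) y) then bif isLet (2 * i) (lw h (dst k) y) then
    bif isLet (2 * j) (lw k (dst h) y) then isLet (2 * j) (lw k (src h) y)
    else false else false else false else false else false else false else false

/-- search for the pair `(i, j)` in a list of relations and check it -/
def findComm (i j : ℕ) : List (ℕ × ℕ × ℕ × ℕ × ℕ) → Bool
  | [] => false
  | (a, b, h, k, y) :: l =>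
    bif (bif Nat.beq a i then Nat.beq b j else false) then chkComm a b h k y
    else bif (bif Nat.beq a j then Nat.beq b i else false) then chkComm a b h k y
    else findComm i j l

theorem all_comm : allB (fun i => allB (fun j =>
    bif raagC i j then bif Nat.beq i j then true else findComm i j commList else true) 10) 10
      = true := by
  decide +kernel

section

variable {Q : Type*} [Group Q] {H : ℕ → ℕ → ℕ → Q}

theorem letter_even (x : ℕ → Q) (i : ℕ) : letter x (2 * i) = x i := by
  unfold letter
  have h1 : 2 * i % 2 = 0 := by omega
  have h2 : 2 * i / 2 = i := by omega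
  rw [h1, h2]
  rfl

theorem Sys.comm_of_chk (S : Sys H) {i j h k y : ℕ} (hc : chkComm i j h k y = true) :
    Commute (gam H i) (gam H j) := by
  unfold chkComm at hc
  cases h1 : Nat.blt h 26 with
  | false => rw [h1] at hc; simp at hc
  | true =>
  cases h2 : Nat.blt k 26 with
  | false => rw [h1, h2] at hc; simp at hc
  | true =>
  cases h3 : Nat.blt y 23 with
  | false => rw [h1, h2, h3] at hc; simp at hc
  | true =>
  cases h4 : vs h k y with
  | false => rw [h1, h2, h3, h4] at hc; simp at hc
  | true =>
  rw [h1, h2, h3, h4] at hc
  cases h5 : isLet (2 * i) (lw h (src k) y) with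
  | false => rw [h5] at hc; simp at hc
  | true =>
  cases h6 : isLet (2 * i) (lw h (dst k) y) with
  | false => rw [h5, h6] at hc; simp at hc
  | true =>
  cases h7 : isLet (2 * j) (lw k (dst h) y) with
  | false => rw [h5, h6, h7] at hc; simp at hc
  | true =>
  rw [h5, h6, h7] at hc
  simp only [cond_true] at hc
  have hh : h < 26 := by simpa [Nat.blt] using h1
  have hk : k < 26 := by simpa [Nat.blt] using h2
  have hy : y < 23 := by simpa [Nat.blt] using h3
  obtain ⟨v1, v2, v3⟩ := (vs_iff h k y).1 h4
  have sh := src_lt h hh
  have sk := src_lt k hk
  have dh := dst_ge h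
  have dk := dst_ge k
  have e1 : H h (src k) y = ev (gam H) (lw h (src k) y) :=
    S.eq_ev _ _ _ hh (by omega) hy ((vm_iff _ _ _).2 ⟨fun e => v1 e.symm, v2, fun e => absurd e.symm v3⟩)
  have e2 : H k (dst h) y = ev (gam H) (lw k (dst h) y) :=
    S.eq_ev _ _ _ hk (dst_lt h hh) hy ((vm_iff _ _ _).2 ⟨by omega, v3, fun e => by omega⟩)
  have e3 : H k (src h) y = ev (gam H) (lw k (src h) y) :=
    S.eq_ev _ _ _ hk (by omega) hy ((vm_iff _ _ _).2 ⟨v1, v3, fun e => absurd e.symm v2⟩)
  have e4 : H h (dst k) y = ev (gam H) (lw h (dst k) y) :=
    S.eq_ev _ _ _ hh (dst_lt k hk) hy ((vm_iff _ _ _).2 ⟨by omega, v2, fun e => by omega⟩)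
  have hsq := S.sq h k y hh hk hy v1 v2 v3
  rw [e1, e2, e3, e4, isLet_iff h5, isLet_iff h6, isLet_iff h7, isLet_iff hc, ev_cons, ev_nil,
    ev_cons, ev_nil, mul_one, mul_one, letter_even, letter_even] at hsq
  exact hsq

theorem Sys.comm_of_find (S : Sys H) {i j : ℕ} (l : List (ℕ × ℕ × ℕ × ℕ × ℕ))
    (hc : findComm i j l = true) : Commute (gam H i) (gam H j) := by
  induction l with
  | nil => simp [findComm] at hc
  | cons e l ih =>
    obtain ⟨a, b, h, k, y⟩ := e
    simp only [findComm] at hc
    cases h1 : Nat.beq a i with
    | true =>
      cases h2 : Nat.beq b j with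
      | true =>
        rw [h1, h2] at hc
        simp only [cond_true] at hc
        have := S.comm_of_chk hc
        rwa [Nat.eq_of_beq_eq_true h1, Nat.eq_of_beq_eq_true h2] at this
      | false =>
        rw [h1, h2] at hc
        simp only [cond_true, cond_false] at hc
        cases h3 : Nat.beq a j with
        | true =>
          cases h4 : Nat.beq b i with
          | true =>
            rw [h3, h4] at hc
            simp only [cond_true] at hc
            have := S.comm_of_chk hc
            rw [Nat.eq_of_beq_eq_true h3, Nat.eq_of_beq_eq_true h4] at this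
            exact this.symm
          | false =>
            rw [h3, h4] at hc
            exact ih hc
        | false =>
          rw [h3] at hc
          exact ih hc
    | false =>
      rw [h1] at hc
      simp only [cond_false] at hc
      cases h3 : Nat.beq a j with
      | true =>
        cases h4 : Nat.beq b i with
        | true =>
          rw [h3, h4] at hc
          simp only [cond_true] at hc
          have := S.comm_of_chk hc
          rw [Nat.eq_of_beq_eq_true h3, Nat.eq_of_beq_eq_true h4] at this
          exact this.symm
        | false =>
          rw [h3, h4] at hc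
          exact ih hc
      | false =>
        rw [h3] at hc
        exact ih hc

/-- The values of the generators satisfy the commutation relations. -/
theorem Sys.comm (S : Sys H) : Comm raagC (gam H) := by
  intro i j hij
  have hi : i < 10 := by
    unfold raagC at hij
    cases h1 : Nat.ble i 9 with
    | false => rw [h1] at hij; simp at hij
    | true => have := bleT.1 h1; omega
  have hj : j < 10 := by
    unfold raagC at hij
    cases h1 : Nat.ble i 9 with
    | false => rw [h1] at hij; simp at hij
    | true =>
      cases h2 : Nat.ble j 9 with
      | false => rw [h1, h2] at hij; simp at hij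
      | true => have := bleT.1 h2; omega
  have := allB_spec (allB_spec all_comm i hi) j hj
  simp only [hij, cond_true] at this
  cases h1 : Nat.beq i j with
  | true => rw [Nat.eq_of_beq_eq_true h1]
  | false =>
    rw [h1] at this
    exact S.comm_of_find _ this

end

end Pool.Agent.MP_340815_al.Cert
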