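import Mathlib

/-!
# MP_340815_al: interface between the topological part (M2) and the combinatorial part (M3)

`UType G n` is the poset of strata of the unordered configuration space of `n` points in the
realisation of a simple graph `G`.
-/

set_option autoImplicit false

namespace Pool.Agent.MP_340815_al

section General

variable {V : Type} [DecidableEq V]

/-- The possible supports of points of the realisation: `{v}` (a vertex) or `{u, v}` with `u, v`
adjacent (an open edge). -/
def IsPos (G : SimpleGraph V) (s : Finset V) : Prop :=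
  ∃ u v : V, (u = v ∨ G.Adj u v) ∧ s = {u, v}

/-- The type of an ordered configuration of `n` distinct points: the support of every point; two
different points do not sit at the same vertex. -/
structure OType (G : SimpleGraph V) (n : ℕ) where
  /-- supports -/
  pos : Fin n → Finset V
  isPos : ∀ i, IsPos G (pos i)
  inj : ∀ i j v, pos i = {v} → pos j = {v} → i = j

/-- Types of unordered configurations (same shape as the quotient in the frozen statement). -/
def UType (G : SimpleGraph V) (n : ℕ) : Type :=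
  Quot (fun p q : OType G n => ∃ σ : Equiv.Perm (Fin n), q.pos = p.pos ∘ σ)

/-- The unordered type of an ordered type. -/
def UType.mk {G : SimpleGraph V} {n : ℕ} (p : OType G n) : UType G n := Quot.mk _ p

/-- Reordering an ordered type. -/
def OType.perm {G : SimpleGraph V} {n : ℕ} (p : OType G n) (σ : Equiv.Perm (Fin n)) :
    OType G n where
  pos := p.pos ∘ σ
  isPos := fun i => p.isPos (σ i)
  inj := fun _ _ v hi hj => σ.injective (p.inj _ _ v hi hj)

theorem OType.ext' {G : SimpleGraph V} {n : ℕ} {p q : OType G n} (h : p.pos = q.pos) : p = q := by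
  cases p; cases q; simp only at h; subst h; rfl

theorem UType.mk_eq_iff {G : SimpleGraph V} {n : ℕ} (p q : OType G n) :
    UType.mk p = UType.mk q ↔ ∃ σ : Equiv.Perm (Fin n), q.pos = p.pos ∘ σ := by
  constructor
  · intro h
    have h' := Quot.eqvGen_exact h
    clear h
    induction h' with
    | rel _ _ h => exact h
    | refl => exact ⟨1, rfl⟩
    | symm _ _ _ ih =>
      obtain ⟨σ, h⟩ := ih
      refine ⟨σ⁻¹, ?_⟩
      rw [h]; funext i; simp
    | trans _ _ _ _ _ ih1 ih2 =>
      obtain ⟨σ, h1⟩ := ih1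
      obtain ⟨τ, h2⟩ := ih2
      exact ⟨σ * τ, by rw [h2, h1]; rfl⟩
  · intro h
    exact Quot.sound h

theorem UType.mk_perm {G : SimpleGraph V} {n : ℕ} (p : OType G n) (σ : Equiv.Perm (Fin n)) :
    UType.mk (p.perm σ) = UType.mk p :=
  ((UType.mk_eq_iff p (p.perm σ)).2 ⟨σ, rfl⟩).symm

/-- `p ≤ q` iff, after reordering, the support of every particle of `p` is contained in the support
of the corresponding particle of `q` (some of the particles sitting at vertices of `p` are moved
onto incident edges). -/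
instance UType.instLE (G : SimpleGraph V) (n : ℕ) : LE (UType G n) where
  le p q := ∃ p' q' : OType G n, UType.mk p' = p ∧ UType.mk q' = q ∧ ∀ i, p'.pos i ⊆ q'.pos i

theorem UType.le_def {G : SimpleGraph V} {n : ℕ} (p q : UType G n) :
    p ≤ q ↔ ∃ p' q' : OType G n, UType.mk p' = p ∧ UType.mk q' = q ∧
      ∀ i, p'.pos i ⊆ q'.pos i := Iff.rfl

theorem UType.exists_rep {G : SimpleGraph V} {n : ℕ} (p : UType G n) :
    ∃ p' : OType G n, UType.mk p' = p := Quot.exists_rep p

/-- One of the two representatives in `p ≤ q` can be prescribed. -/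
theorem UType.mk_le_iff {G : SimpleGraph V} {n : ℕ} (p' : OType G n) (q : UType G n) :
    UType.mk p' ≤ q ↔ ∃ q' : OType G n, UType.mk q' = q ∧ ∀ i, p'.pos i ⊆ q'.pos i := by
  constructor
  · rintro ⟨p'', q', hp, rfl, h⟩
    obtain ⟨σ, hσ⟩ := (UType.mk_eq_iff p'' p').1 hp
    refine ⟨q'.perm σ, UType.mk_perm q' σ, fun i => ?_⟩
    rw [hσ]
    exact h (σ i)
  · rintro ⟨q', rfl, h⟩
    exact ⟨p', q', rfl, rfl, h⟩

theorem UType.le_mk_iff {G : SimpleGraph V} {n : ℕ} (p : UType G n) (q' : OType G n) :
    p ≤ UType.mk q' ↔ ∃ p' : OType G n, UType.mk p' = p ∧ ∀ i, p'.pos i ⊆ q'.pos i := by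
  constructor
  · rintro ⟨p', q'', rfl, hq, h⟩
    obtain ⟨σ, hσ⟩ := (UType.mk_eq_iff q'' q').1 hq
    refine ⟨p'.perm σ, UType.mk_perm p' σ, fun i => ?_⟩
    rw [hσ]
    exact h (σ i)
  · rintro ⟨p', rfl, h⟩
    exact ⟨p', q', rfl, rfl, h⟩

instance UType.instPreorder (G : SimpleGraph V) (n : ℕ) : Preorder (UType G n) where
  le_refl p := by
    obtain ⟨p', rfl⟩ := p.exists_rep
    exact ⟨p', p', rfl, rfl, fun _ => le_rfl⟩
  le_trans p q r hpq hqr := by
    obtain ⟨q', rfl⟩ := q.exists_rep
    obtain ⟨p', rfl, h1⟩ := (UType.le_mk_iff _ _).1 hpq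
    obtain ⟨r', rfl, h2⟩ := (UType.mk_le_iff _ _).1 hqr
    exact ⟨p', r', rfl, rfl, fun i => (h1 i).trans (h2 i)⟩

end General

/-! ### The concrete graph: two copies of `K_{2,3}` joined by a bridge -/

/-- The 13 edges. Left `K_{2,3}`: parts `{0,1}`, `{2,3,4}`; right: `{5,6}`, `{7,8,9}`;
bridge `2 - 7`. -/
def gammaEdges : List (Fin 10 × Fin 10) :=
  [(0,2),(0,3),(0,4),(1,2),(1,3),(1,4),(2,7),(5,7),(5,8),(5,9),(6,7),(6,8),(6,9)]

/-- Two copies of `K_{2,3}` joined by a bridge. -/
def Gam : SimpleGraph (Fin 10) where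
  Adj u v := (u, v) ∈ gammaEdges ∨ (v, u) ∈ gammaEdges
  symm := ⟨fun _ _ h => h.symm⟩
  loopless := ⟨fun u h => by revert u; decide⟩

instance : DecidableRel Gam.Adj := fun u v =>
  inferInstanceAs (Decidable ((u, v) ∈ gammaEdges ∨ (v, u) ∈ gammaEdges))

/-- No triangles. -/
theorem Gam_no_triangle : ∀ a b c : Fin 10, Gam.Adj a b → Gam.Adj b c → ¬ Gam.Adj c a := by
  decide

theorem Gam_connected : Gam.Connected := by
  rw [SimpleGraph.connected_iff_exists_forall_reachable]
  refine ⟨2, ?_⟩
  have h : ∀ a b : Fin 10, Gam.Adj a b → Gam.Reachable a b := fun a b h => h.reachable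
  have h20 := h 2 0 (by decide)
  have h21 := h 2 1 (by decide)
  have h03 := h20.trans (h 0 3 (by decide))
  have h04 := h20.trans (h 0 4 (by decide))
  have h27 := h 2 7 (by decide)
  have h75 := h27.trans (h 7 5 (by decide))
  have h76 := h27.trans (h 7 6 (by decide))
  have h58 := h75.trans (h 5 8 (by decide))
  have h59 := h75.trans (h 5 9 (by decide))
  intro w
  fin_cases w
  · exact h20
  · exact h21
  · exact SimpleGraph.Reachable.refl _
  · exact h03
  · exact h04
  · exact h75
  · exact h76
  · exact h27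
  · exact h58
  · exact h59

end Pool.Agent.MP_340815_al
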