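import Pool.Agent.Lib.MP_340815_al.H64.Check

/-!
# MP_340815_al: soundness of the elimination certificate
-/

set_option autoImplicit false

namespace Pool.Agent.MP_340815_al.Cert

open Pool.Agent.MP_340815_al.H75

/-! ### Elementary facts on the table functions -/

theorem beqF {a b : ℕ} : Nat.beq a b = false ↔ a ≠ b := by
  constructor
  · exact Nat.ne_of_beq_eq_false
  · intro h
    cases h' : Nat.beq a b with
    | false => rfl
    | true => exact absurd (Nat.eq_of_beq_eq_true h') h

theorem beqT {a b : ℕ} : Nat.beq a b = true ↔ a = b :=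
  ⟨Nat.eq_of_beq_eq_true, fun h => by subst h; exact Nat.beq_refl _⟩

theorem bleT {a b : ℕ} : Nat.ble a b = true ↔ a ≤ b :=
  ⟨Nat.le_of_ble_eq_true, Nat.ble_eq_true_of_le⟩

theorem bleF {a b : ℕ} : Nat.ble a b = false ↔ b < a := by
  constructor
  · intro h
    by_contra h'
    rw [bleT.2 (not_lt.1 h')] at h
    exact absurd h (by decide)
  · intro h
    cases h' : Nat.ble a b with
    | false => rfl
    | true => exact absurd (bleT.1 h') (by omega)

theorem src_lt : ∀ h, h < 26 → src h < 10 := by
  have : allB (fun h => Nat.blt (src h) 10) 26 = true := by decide +kernel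
  intro h hh
  have := allB_spec this h hh
  simpa [Nat.blt] using this

theorem dst_ge (h : ℕ) : 10 ≤ dst h := by unfold dst; omega

theorem dst_lt (h : ℕ) (hh : h < 26) : dst h < 23 := by unfold dst; omega

theorem mn_eq (b c : ℕ) : mn b c = min b c := by
  unfold mn
  cases h1 : Nat.ble b c with
  | true => have := bleT.1 h1; simp only [cond_true]; omega
  | false => have := bleF.1 h1; simp only [cond_false]; omega

theorem mx_eq (b c : ℕ) : mx b c = max b c := by
  unfold mx
  cases h1 : Nat.ble b c with
  | true => have := bleT.1 h1; simp only [cond_true]; omega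
  | false => have := bleF.1 h1; simp only [cond_false]; omega

theorem mn_comm (b c : ℕ) : mn b c = mn c b := by rw [mn_eq, mn_eq]; omega

theorem mx_comm (b c : ℕ) : mx b c = mx c b := by rw [mx_eq, mx_eq]; omega

theorem midx_comm (h b c : ℕ) : midx h b c = midx h c b := by
  unfold midx; rw [mn_comm, mx_comm]

theorem labn_comm (h b c : ℕ) : labn h b c = labn h c b := by
  unfold labn; rw [midx_comm]

theorem lw_comm (h b c : ℕ) : lw h b c = lw h c b := by
  unfold lw; rw [labn_comm]

theorem lev_comm (h b c : ℕ) : lev h b c = lev h c b := by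
  unfold lev; rw [midx_comm]

theorem rea_comm (h b c : ℕ) : rea h b c = rea h c b := by
  unfold rea; rw [midx_comm]

theorem vm_iff (h b c : ℕ) :
    vm h b c = true ↔ b ≠ src h ∧ c ≠ src h ∧ (b = c → 10 ≤ b) := by
  unfold vm
  cases h1 : Nat.beq b (src h) with
  | true => simp [beqT.1 h1]
  | false =>
  cases h2 : Nat.beq c (src h) with
  | true => simp [beqT.1 h2]
  | false =>
  have e1 := beqF.1 h1
  have e2 := beqF.1 h2
  cases h3 : Nat.beq b c with
  | true =>
    have e3 := beqT.1 h3
    simp only [cond_true, cond_false]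
    rw [bleT]
    exact ⟨fun h => ⟨e1, e2, fun _ => h⟩, fun h => h.2.2 e3⟩
  | false =>
    have e3 := beqF.1 h3
    simp only [cond_false, true_iff]
    exact ⟨e1, e2, fun h => absurd h e3⟩

theorem vm_comm (h b c : ℕ) : vm h b c = true ↔ vm h c b = true := by
  rw [vm_iff, vm_iff]
  constructor
  · rintro ⟨h1, h2, h3⟩; exact ⟨h2, h1, fun e => by rw [e]; exact h3 e.symm⟩
  · rintro ⟨h1, h2, h3⟩; exact ⟨h2, h1, fun e => by rw [e]; exact h3 e.symm⟩

theorem vs_iff (h k y : ℕ) :
    vs h k y = true ↔ src h ≠ src k ∧ y ≠ src h ∧ y ≠ src k := by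
  unfold vs
  cases h1 : Nat.beq (src h) (src k) with
  | true => simp [beqT.1 h1]
  | false =>
  cases h2 : Nat.beq y (src h) with
  | true => simp [beqT.1 h2]
  | false =>
  cases h3 : Nat.beq y (src k) with
  | true => simp [beqT.1 h3]
  | false =>
    simp only [cond_false, true_iff]
    exact ⟨beqF.1 h1, beqF.1 h2, beqF.1 h3⟩

theorem chkMove_all (h b c : ℕ) (hh : h < 26) (hbc : b ≤ c) (hc : c < 23) :
    chkMove h b c = true :=
  allB_spec (allB_spec (allB_spec all_moves h hh) c hc) b (by omega)

theorem chkSq_all (h k y : ℕ) (hh : h < 26) (hk : k < 26) (hy : y < 23) :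
    chkSq h k y = true :=
  allB_spec (allB_spec (allB_spec all_squares h hh) k hk) y hy

theorem comm_freeC {Q : Type*} [Group Q] (x : ℕ → Q) : Comm freeC x := by
  intro i j h
  have : i = j := Nat.eq_of_beq_eq_true h
  subst this
  exact Commute.refl _

theorem word_zero : word 0 = [] := by decide +kernel

theorem labn_word_zero {h b c : ℕ} (hl : labn h b c = 0) : lw h b c = [] := by
  unfold lw; rw [hl, word_zero]

section Elim

variable {Q : Type*} [Group Q] (H : ℕ → ℕ → ℕ → Q)

/-- the values of the generators -/
def gam (i : ℕ) : Q := H (gh i) (gb i) (gc i)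

/-- Data of a normalised cocycle on the moves. -/
structure Sys : Prop where
  symm : ∀ h b c, H h b c = H h c b
  sq : ∀ h k y, h < 26 → k < 26 → y < 23 → src h ≠ src k → y ≠ src h → y ≠ src k →
    H h (src k) y * H k (dst h) y = H k (src h) y * H h (dst k) y
  tree : ∀ h b c, h < 26 → b < 23 → c < 23 → vm h b c = true → rea h b c = 0 → H h b c = 1

variable {H}

theorem Sys.sqA (S : Sys H) {h k y L : ℕ} (hh : h < 26) (hk : k < 26) (hy : y < 23)
    (hc : chkA h k y L = true)
    (IH : ∀ h b c, h < 26 → b < 23 → c < 23 → vm h b c = true → lev h b c < L →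
      H h b c = ev (gam H) (lw h b c)) :
    H h (src k) y = ev (gam H) (lw h (src k) y) := by
  unfold chkA at hc
  cases hv : vs h k y with
  | false => rw [hv] at hc; simp at hc
  | true =>
  rw [hv] at hc
  cases h1 : Nat.blt (lev k (dst h) y) L with
  | false => rw [h1] at hc; simp at hc
  | true =>
  rw [h1] at hc
  cases h2 : Nat.blt (lev k (src h) y) L with
  | false => rw [h2] at hc; simp at hc
  | true =>
  rw [h2] at hc
  cases h3 : Nat.blt (lev h (dst k) y) L with
  | false => rw [h3] at hc; simp at hc
  | true =>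
  rw [h3] at hc
  simp only [cond_true] at hc
  obtain ⟨v1, v2, v3⟩ := (vs_iff h k y).1 hv
  have hsq := S.sq h k y hh hk hy v1 v2 v3
  have he := eqW_sound (comm_freeC (gam H)) hc
  unfold sqL sqR at he
  rw [ev_append, ev_append] at he
  have sh := src_lt h hh
  have sk := src_lt k hk
  have dh := dst_ge h
  have dk := dst_ge k
  have e1 : H k (dst h) y = ev (gam H) (lw k (dst h) y) :=
    IH _ _ _ hk (dst_lt h hh) hy ((vm_iff _ _ _).2 ⟨by omega, v3, fun e => by omega⟩)
      (by simpa [Nat.blt] using h1)
  have e2 : H k (src h) y = ev (gam H) (lw k (src h) y) :=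
    IH _ _ _ hk (by omega) hy ((vm_iff _ _ _).2 ⟨v1, v3, fun e => absurd e.symm v2⟩)
      (by simpa [Nat.blt] using h2)
  have e3 : H h (dst k) y = ev (gam H) (lw h (dst k) y) :=
    IH _ _ _ hh (dst_lt k hk) hy ((vm_iff _ _ _).2 ⟨by omega, v2, fun e => by omega⟩)
      (by simpa [Nat.blt] using h3)
  rw [e1, e2, e3, ← he] at hsq
  exact mul_right_cancel hsq

theorem Sys.sqB (S : Sys H) {h k y L : ℕ} (hh : h < 26) (hk : k < 26) (hy : y < 23)
    (hc : chkB h k y L = true)
    (IH : ∀ h b c, h < 26 → b < 23 → c < 23 → vm h b c = true → lev h b c < L →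
      H h b c = ev (gam H) (lw h b c)) :
    H h (dst k) y = ev (gam H) (lw h (dst k) y) := by
  unfold chkB at hc
  cases hv : vs h k y with
  | false => rw [hv] at hc; simp at hc
  | true =>
  rw [hv] at hc
  cases h1 : Nat.blt (lev k (dst h) y) L with
  | false => rw [h1] at hc; simp at hc
  | true =>
  rw [h1] at hc
  cases h2 : Nat.blt (lev k (src h) y) L with
  | false => rw [h2] at hc; simp at hc
  | true =>
  rw [h2] at hc
  cases h3 : Nat.blt (lev h (src k) y) L with
  | false => rw [h3] at hc; simp at hc
  | true =>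
  rw [h3] at hc
  simp only [cond_true] at hc
  obtain ⟨v1, v2, v3⟩ := (vs_iff h k y).1 hv
  have hsq := S.sq h k y hh hk hy v1 v2 v3
  have he := eqW_sound (comm_freeC (gam H)) hc
  unfold sqL sqR at he
  rw [ev_append, ev_append] at he
  have sh := src_lt h hh
  have sk := src_lt k hk
  have dh := dst_ge h
  have dk := dst_ge k
  have e1 : H k (dst h) y = ev (gam H) (lw k (dst h) y) :=
    IH _ _ _ hk (dst_lt h hh) hy ((vm_iff _ _ _).2 ⟨by omega, v3, fun e => by omega⟩)
      (by simpa [Nat.blt] using h1)
  have e2 : H k (src h) y = ev (gam H) (lw k (src h) y) :=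
    IH _ _ _ hk (by omega) hy ((vm_iff _ _ _).2 ⟨v1, v3, fun e => absurd e.symm v2⟩)
      (by simpa [Nat.blt] using h2)
  have e3 : H h (src k) y = ev (gam H) (lw h (src k) y) :=
    IH _ _ _ hh (by omega) hy ((vm_iff _ _ _).2 ⟨fun e => v1 e.symm, v2, fun e => absurd e.symm v3⟩)
      (by simpa [Nat.blt] using h3)
  rw [e1, e2, e3, he] at hsq
  exact (mul_left_cancel hsq).symm

theorem Sys.step (S : Sys H) (h b c : ℕ) (hh : h < 26) (hbc : b ≤ c) (hc : c < 23)
    (hv : vm h b c = true)
    (IH : ∀ h' b' c', h' < 26 → b' < 23 → c' < 23 → vm h' b' c' = true →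
      lev h' b' c' < lev h b c → H h' b' c' = ev (gam H) (lw h' b' c')) :
    H h b c = ev (gam H) (lw h b c) := by
  have hm := chkMove_all h b c hh hbc hc
  unfold chkMove at hm
  rw [hv] at hm
  simp only [cond_true] at hm
  cases h0 : Nat.beq (rea h b c) 0 with
  | true =>
    rw [h0] at hm
    simp only [cond_true] at hm
    have hl : labn h b c = 0 := Nat.eq_of_beq_eq_true hm
    rw [labn_word_zero hl, ev_nil]
    exact S.tree h b c hh (by omega) hc hv (Nat.eq_of_beq_eq_true h0)
  | false =>
  rw [h0] at hm
  cases h1 : Nat.beq (rea h b c) 1 with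
  | true =>
    rw [h1] at hm
    simp only [cond_true, cond_false] at hm
    generalize hw : lw h b c = w at hm
    match w, hm with
    | [], hm => simp [chkGen] at hm
    | _ :: _ :: _, hm => simp [chkGen] at hm
    | [x], hm =>
      simp only [chkGen] at hm
      cases a1 : Nat.beq (x % 2) 0 with
      | false => rw [a1] at hm; simp at hm
      | true =>
      rw [a1] at hm
      cases a2 : Nat.beq (gh (x / 2)) h with
      | false => rw [a2] at hm; simp at hm
      | true =>
      rw [a2] at hm
      cases a3 : Nat.beq (gb (x / 2)) b with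
      | false => rw [a3] at hm; simp at hm
      | true =>
      rw [a3] at hm
      simp only [cond_true] at hm
      have b2 := Nat.eq_of_beq_eq_true a2
      have b3 := Nat.eq_of_beq_eq_true a3
      have b4 := Nat.eq_of_beq_eq_true hm
      rw [ev_cons, ev_nil, mul_one]
      unfold letter
      rw [a1]
      simp only [cond_true]
      unfold gam
      rw [b2, b3, b4]
  | false =>
  rw [h1] at hm
  simp only [cond_false] at hm
  unfold chkDer at hm
  cases k1 : Nat.blt ((rea h b c - 2) / 4) 26 with
  | false => rw [k1] at hm; simp at hm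
  | true =>
  rw [k1] at hm
  have hk : (rea h b c - 2) / 4 < 26 := by simpa [Nat.blt] using k1
  generalize (rea h b c - 2) / 4 = k at hm hk
  simp only [cond_true] at hm
  cases k2 : Nat.beq ((rea h b c - 2) % 4) 0 with
  | true =>
    rw [k2] at hm
    simp only [cond_true] at hm
    cases k3 : Nat.beq (src k) b with
    | false => rw [k3] at hm; simp at hm
    | true =>
    rw [k3] at hm
    simp only [cond_true] at hm
    have e := Nat.eq_of_beq_eq_true k3
    have := S.sqA hh hk (by omega) hm IH
    rw [e] at this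
    exact this
  | false =>
  rw [k2] at hm
  simp only [cond_false] at hm
  cases k3 : Nat.beq ((rea h b c - 2) % 4) 1 with
  | true =>
    rw [k3] at hm
    simp only [cond_true] at hm
    cases k4 : Nat.beq (src k) c with
    | false => rw [k4] at hm; simp at hm
    | true =>
    rw [k4] at hm
    simp only [cond_true] at hm
    have e := Nat.eq_of_beq_eq_true k4
    have := S.sqA hh hk (by omega) hm IH
    rw [e] at this
    rw [S.symm, lw_comm]
    exact this
  | false =>
  rw [k3] at hm
  simp only [cond_false] at hm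
  cases k4 : Nat.beq ((rea h b c - 2) % 4) 2 with
  | true =>
    rw [k4] at hm
    simp only [cond_true] at hm
    cases k5 : Nat.beq (dst k) b with
    | false => rw [k5] at hm; simp at hm
    | true =>
    rw [k5] at hm
    simp only [cond_true] at hm
    have e := Nat.eq_of_beq_eq_true k5
    have := S.sqB hh hk (by omega) hm IH
    rw [e] at this
    exact this
  | false =>
  rw [k4] at hm
  simp only [cond_false] at hm
  cases k5 : Nat.beq (dst k) c with
  | false => rw [k5] at hm; simp at hm
  | true =>
  rw [k5] at hm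
  simp only [cond_true] at hm
  have e := Nat.eq_of_beq_eq_true k5
  have := S.sqB hh hk (by omega) hm IH
  rw [e] at this
  rw [S.symm, lw_comm]
  exact this

/-- Every move is the word of the generators prescribed by the table. -/
theorem Sys.eq_ev (S : Sys H) (h b c : ℕ) (hh : h < 26) (hb : b < 23) (hc : c < 23)
    (hv : vm h b c = true) : H h b c = ev (gam H) (lw h b c) := by
  suffices hmain : ∀ L h b c, lev h b c = L → h < 26 → b < 23 → c < 23 → vm h b c = true →
      H h b c = ev (gam H) (lw h b c) from hmain _ h b c rfl hh hb hc hv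
  intro L
  induction L using Nat.strong_induction_on with
  | _ L ih =>
  intro h b c hL hh hb hc hv
  rcases le_total b c with hbc | hbc
  · exact S.step h b c hh hbc hc hv fun h' b' c' hh' hb' hc' hv' hl =>
      ih _ (hL ▸ hl) h' b' c' rfl hh' hb' hc' hv'
  · rw [S.symm, lw_comm]
    refine S.step h c b hh hbc hb ((vm_comm _ _ _).1 hv) fun h' b' c' hh' hb' hc' hv' hl =>
      ih _ ?_ h' b' c' rfl hh' hb' hc' hv'
    rw [lev_comm] at hL
    exact hL ▸ hl

end Elim

end Pool.Agent.MP_340815_al.Cert
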