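import Pool.Agent.Lib.MP_340815_al.H64.Check

/-!
# MP_340815_al: the spanning tree
-/

set_option autoImplicit false

namespace Pool.Agent.MP_340815_al.Cert

/-- code of the sorted triple -/
def scode (a b c : ℕ) : ℕ :=
  529 * mn a (mn b c) + 23 * (a + b + c - mn a (mn b c) - mx a (mx b c)) + mx a (mx b c)

/-- is the sorted triple `a ≤ b ≤ c` a state -/
def vst (a b c : ℕ) : Bool :=
  bif Nat.beq a b then bif Nat.ble 10 a then true else false else
    bif Nat.beq b c then Nat.ble 10 b else true

/-- depth -/
def dep (n : ℕ) : ℕ := byte depTab n

/-- parent info -/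
def pin (n : ℕ) : ℕ := byte pinTab n

/-- the new position of the moved particle in the parent -/
def newz (r : ℕ) : ℕ := bif Nat.beq (r / 78) 0 then dst (r % 26) else src (r % 26)

/-- code of the parent, from the triple and the parent information -/
def pcode (a b c r : ℕ) : ℕ :=
  bif Nat.beq (r / 26 % 3) 0 then scode (newz r) b c
  else bif Nat.beq (r / 26 % 3) 1 then scode (newz r) a c
  else scode (newz r) a b

/-- code of the parent -/
def parOf (n : ℕ) : ℕ := pcode (n / 529) (n / 23 % 23) (n % 23) (pin n)

/-- `z` is the end of the half edge that is moved -/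
def chkSt1 (r z x y : ℕ) : Bool :=
  bif vm (r % 26) x y then bif Nat.beq (rea (r % 26) x y) 0 then
    bif Nat.beq (r / 78) 0 then Nat.beq (src (r % 26)) z else Nat.beq (dst (r % 26)) z
  else false else false

/-- check of a state -/
def chkSt2 (a b c r : ℕ) : Bool :=
  bif Nat.beq (r / 26 % 3) 0 then chkSt1 r a b c
  else bif Nat.beq (r / 26 % 3) 1 then chkSt1 r b a c
  else chkSt1 r c a b

/-- check of a state -/
def chkState (a b c : ℕ) : Bool :=
  bif vst a b c then bif Nat.beq (529 * a + 23 * b + c) rootCode then true else
    bif Nat.blt (dep (pcode a b c (pin (529 * a + 23 * b + c)))) (dep (529 * a + 23 * b + c)) then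
      chkSt2 a b c (pin (529 * a + 23 * b + c))
    else false
  else true

/-- check that a tree move joins a state and its parent -/
def chkTree (h b c : ℕ) : Bool :=
  bif vm h b c then bif Nat.beq (rea h b c) 0 then
    bif (bif Nat.beq (scode (src h) b c) rootCode then false else
        Nat.beq (parOf (scode (src h) b c)) (scode (dst h) b c)) then true
    else (bif Nat.beq (scode (dst h) b c) rootCode then false else
        Nat.beq (parOf (scode (dst h) b c)) (scode (src h) b c))
  else true else true

theorem all_states :
    allB (fun c => allB (fun b => allB (fun a => chkState a b c) (b + 1)) (c + 1)) 23 = true := by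
  decide +kernel

theorem all_tree :
    allB (fun h => allB (fun c => allB (fun b => chkTree h b c) (c + 1)) 23) 26 = true := by
  decide +kernel

end Pool.Agent.MP_340815_al.Cert
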