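import Pool.Agent.Lib.MP_340815_al.H64.Comm
import Pool.Agent.Lib.MP_340815_al.H64.Tree
import Pool.Agent.Lib.MP_340815_al.H75.Reduce
import Pool.Agent.Lib.MP_340815_al.H75.Delta

/-!
# MP_340815_al: the spanning tree on the poset of strata, gauge transformations
-/

set_option autoImplicit false

namespace Pool.Agent.MP_340815_al.Cert

open Pool.Agent.MP_340815_al Pool.Agent.MP_340815_al.H75

/-! ### Half edges and moves -/

/-- the half edge of a move -/
def hOf (a b : ℕ) : ℕ := 2 * (b - 10) + (bif Nat.beq (src (2 * (b - 10))) a then 0 else 1)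

theorem hOf_spec {a b : ℕ} (h : mv a b = true) :
    hOf a b < 26 ∧ src (hOf a b) = a ∧ dst (hOf a b) = b := by
  have key : allB (fun a => allB (fun b => bif mv a b then
      (bif Nat.blt (hOf a b) 26 then bif Nat.beq (src (hOf a b)) a then
        Nat.beq (dst (hOf a b)) b else false else false) else true) 23) 10 = true := by
    decide +kernel
  obtain ⟨h1, -, h2⟩ := mv_lt h
  have := allB_spec (allB_spec key a h1) b h2
  simp only [h, cond_true] at this
  cases k1 : Nat.blt (hOf a b) 26 with
  | false => rw [k1] at this; simp at this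
  | true =>
  cases k2 : Nat.beq (src (hOf a b)) a with
  | false => rw [k1, k2] at this; simp at this
  | true =>
  rw [k1, k2] at this
  exact ⟨by simpa [Nat.blt] using k1, beqT.1 k2, beqT.1 this⟩

theorem mv_src_dst {h : ℕ} (hh : h < 26) : mv (src h) (dst h) = true := by
  have key : allB (fun h => mv (src h) (dst h)) 26 = true := by decide +kernel
  exact allB_spec key h hh

theorem hOf_src_dst {h : ℕ} (hh : h < 26) : hOf (src h) (dst h) = h := by
  have key : allB (fun h => Nat.beq (hOf (src h) (dst h)) h) 26 = true := by decide +kernel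
  exact beqT.1 (allB_spec key h hh)

theorem okT_src {h b c : ℕ} (hh : h < 26) :
    okT (src h) b c = true ↔ b < 23 ∧ c < 23 ∧ vm h b c = true := by
  have := src_lt h hh
  rw [okT_iff, vm_iff]
  constructor
  · rintro ⟨h1, h2, h3, h4, h5, h6⟩
    refine ⟨h2, h3, fun e => h4 ⟨e.symm, this⟩, fun e => h6 ⟨e.symm, this⟩, fun e => ?_⟩
    by_contra h'
    exact h5 ⟨e, by omega⟩
  · rintro ⟨h2, h3, h4, h5, h6⟩
    exact ⟨by omega, h2, h3, fun e => h4 e.1.symm, fun e => by have := h6 e.1; omega,
      fun e => h5 e.1.symm⟩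

theorem okT_dst {h b c : ℕ} (hh : h < 26) (hb : b < 23) (hc : c < 23) (hv : vm h b c = true) :
    okT (dst h) b c = true :=
  okT_mv ((okT_src hh).2 ⟨hb, hc, hv⟩) (Or.inr (mv_src_dst hh))

/-! ### Codes of states -/

theorem scode_eq (a b c : ℕ) : scode a b c =
    529 * min a (min b c) + 23 * (a + b + c - min a (min b c) - max a (max b c)) +
      max a (max b c) := by
  unfold scode
  rw [mn_eq, mn_eq, mx_eq, mx_eq]

theorem T_rot (a b c : ℕ) : T c a b = T a b c := by rw [T_swap01, T_swap12]

theorem okT_rot (a b c : ℕ) : okT c a b = okT a b c := by rw [okT_swap01, okT_swap12]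

theorem sorted_rep {a b c : ℕ} (h : okT a b c = true) : ∃ x y z, x ≤ y ∧ y ≤ z ∧
    okT x y z = true ∧ T x y z = T a b c ∧ scode a b c = 529 * x + 23 * y + z := by
  have s01 : okT b a c = true := by rw [okT_swap01]; exact h
  have s12 : okT a c b = true := by rw [okT_swap12]; exact h
  have s3 : okT c a b = true := by rw [okT_rot]; exact h
  have s4 : okT b c a = true := by rw [← okT_rot]; exact h
  have s5 : okT c b a = true := by rw [okT_swap12]; exact s3
  rcases le_total a b with h1 | h1 <;> rcases le_total b c with h2 | h2 <;>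
    rcases le_total a c with h3 | h3
  · exact ⟨a, b, c, h1, h2, h, rfl, by rw [scode_eq]; omega⟩
  · exact ⟨a, b, c, h1, h2, h, rfl, by rw [scode_eq]; omega⟩
  · exact ⟨a, c, b, h3, h2, s12, by rw [T_swap12], by rw [scode_eq]; omega⟩
  · exact ⟨c, a, b, h3, h1, s3, by rw [T_rot], by rw [scode_eq]; omega⟩
  · exact ⟨b, a, c, h1, h3, s01, by rw [T_swap01], by rw [scode_eq]; omega⟩
  · exact ⟨b, c, a, h2, h3, s4, by rw [← T_rot], by rw [scode_eq]; omega⟩
  · exact ⟨c, b, a, h2, h1, s5, by rw [T_swap12, T_rot], by rw [scode_eq]; omega⟩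
  · exact ⟨c, b, a, h2, h1, s5, by rw [T_swap12, T_rot], by rw [scode_eq]; omega⟩

theorem exists_scP (p : UType Gam 3) : ∃ n : ℕ, ∃ a b c, a ≤ b ∧ b ≤ c ∧ okT a b c = true ∧
    T a b c = p ∧ n = 529 * a + 23 * b + c := by
  obtain ⟨a, b, c, h1, h2, h3, h4⟩ := T_surj_sorted p
  exact ⟨_, a, b, c, h1, h2, h3, h4, rfl⟩

/-- the code of a stratum -/
noncomputable def scP (p : UType Gam 3) : ℕ := (exists_scP p).choose

theorem scP_spec (p : UType Gam 3) : ∃ a b c, a ≤ b ∧ b ≤ c ∧ okT a b c = true ∧
    T a b c = p ∧ scP p = 529 * a + 23 * b + c := (exists_scP p).choose_spec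

theorem scP_T {a b c : ℕ} (h : okT a b c = true) : scP (T a b c) = scode a b c := by
  obtain ⟨x, y, z, h1, h2, h3, h4, h5⟩ := sorted_rep h
  obtain ⟨x', y', z', h1', h2', h3', h4', h5'⟩ := scP_spec (T a b c)
  obtain ⟨rfl, rfl, rfl⟩ := T_inj h3 h3' h1 h2 h1' h2' (h4.trans h4'.symm)
  rw [h5, h5']

/-- the stratum of a code -/
def ofCode (n : ℕ) : UType Gam 3 := T (n / 529) (n / 23 % 23) (n % 23)

theorem decode {a b c : ℕ} (hb : b < 23) (hc : c < 23) :
    (529 * a + 23 * b + c) / 529 = a ∧ (529 * a + 23 * b + c) / 23 % 23 = b ∧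
      (529 * a + 23 * b + c) % 23 = c := by omega

theorem ofCode_scode {a b c : ℕ} (h : okT a b c = true) : ofCode (scode a b c) = T a b c := by
  obtain ⟨x, y, z, h1, h2, h3, h4, h5⟩ := sorted_rep h
  obtain ⟨hx, hy, hz, -⟩ := (okT_iff _ _ _).1 h3
  obtain ⟨d1, d2, d3⟩ := decode (a := x) hy hz
  unfold ofCode
  rw [h5, d1, d2, d3, h4]

/-- the parent of a stratum -/
noncomputable def parP (p : UType Gam 3) : UType Gam 3 := ofCode (parOf (scP p))

/-- the root stratum -/
def rootP : UType Gam 3 := ofCode rootCode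

theorem vst_of_okT {a b c : ℕ} (hab : a ≤ b) (hbc : b ≤ c) (h : okT a b c = true) :
    vst a b c = true := by
  obtain ⟨h1, h2, h3, h4, h5, h6⟩ := (okT_iff _ _ _).1 h
  unfold vst
  cases e1 : Nat.beq a b with
  | true =>
    have e1' := beqT.1 e1
    have : Nat.ble 10 a = true := bleT.2 (by omega)
    rw [this]; rfl
  | false =>
  cases e2 : Nat.beq b c with
  | true =>
    have e2' := beqT.1 e2
    have : Nat.ble 10 b = true := bleT.2 (by omega)
    rw [this]; rfl
  | false => rfl

theorem chkSt1_spec {r z x y : ℕ} (h : chkSt1 r z x y = true) (hx : x < 23) (hy : y < 23) :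
    vm (r % 26) x y = true ∧ rea (r % 26) x y = 0 ∧
    ((z = src (r % 26) ∧ newz r = dst (r % 26)) ∨ (z = dst (r % 26) ∧ newz r = src (r % 26))) := by
  unfold chkSt1 at h
  cases k1 : vm (r % 26) x y with
  | false => rw [k1] at h; simp at h
  | true =>
  cases k2 : Nat.beq (rea (r % 26) x y) 0 with
  | false => rw [k1, k2] at h; simp at h
  | true =>
  rw [k1, k2] at h
  simp only [cond_true] at h
  refine ⟨rfl, beqT.1 k2, ?_⟩
  unfold newz
  cases k3 : Nat.beq (r / 78) 0 with
  | true =>
    rw [k3] at h
    simp only [cond_true] at h ⊢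
    exact Or.inl ⟨(beqT.1 h).symm, trivial⟩
  | false =>
    rw [k3] at h
    simp only [cond_false] at h ⊢
    exact Or.inr ⟨(beqT.1 h).symm, trivial⟩

/-- The parent of a stratum different from the root: it has smaller depth and is joined to the
stratum by a tree move. -/
theorem parP_spec (p : UType Gam 3) (hp : p ≠ rootP) :
    dep (scP (parP p)) < dep (scP p) ∧ ∃ h x y, h < 26 ∧ x < 23 ∧ y < 23 ∧ vm h x y = true ∧
      rea h x y = 0 ∧ ((p = T (src h) x y ∧ parP p = T (dst h) x y) ∨
        (p = T (dst h) x y ∧ parP p = T (src h) x y)) := by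
  obtain ⟨a, b, c, hab, hbc, hok, hT, hsc⟩ := scP_spec p
  obtain ⟨ha, hb, hc, -⟩ := (okT_iff _ _ _).1 hok
  obtain ⟨d1, d2, d3⟩ := decode (a := a) hb hc
  have hchk : chkState a b c = true :=
    allB_spec (allB_spec (allB_spec all_states c hc) b (by omega)) a (by omega)
  unfold chkState at hchk
  rw [vst_of_okT hab hbc hok] at hchk
  simp only [cond_true] at hchk
  have hnr : Nat.beq (529 * a + 23 * b + c) rootCode = false := by
    rw [beqF]
    intro e
    apply hp
    unfold rootP ofCode
    rw [← e, d1, d2, d3, hT]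
  rw [hnr] at hchk
  simp only [cond_false] at hchk
  have hpar : parOf (scP p) = pcode a b c (pin (529 * a + 23 * b + c)) := by
    unfold parOf
    rw [hsc, d1, d2, d3]
  generalize hr : pin (529 * a + 23 * b + c) = r at hchk hpar
  cases k1 : Nat.blt (dep (pcode a b c r)) (dep (529 * a + 23 * b + c)) with
  | false => rw [k1] at hchk; simp at hchk
  | true =>
  rw [k1] at hchk
  simp only [cond_true] at hchk
  have hlt : dep (pcode a b c r) < dep (529 * a + 23 * b + c) := by simpa [Nat.blt] using k1
  have hr26 : r % 26 < 26 := Nat.mod_lt _ (by norm_num)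
  -- the three slots
  have main : ∀ z x y, T z x y = p → x < 23 → y < 23 → chkSt1 r z x y = true →
      pcode a b c r = scode (newz r) x y → dep (scP (parP p)) < dep (scP p) ∧
      ∃ h x y, h < 26 ∧ x < 23 ∧ y < 23 ∧ vm h x y = true ∧
      rea h x y = 0 ∧ ((p = T (src h) x y ∧ parP p = T (dst h) x y) ∨
        (p = T (dst h) x y ∧ parP p = T (src h) x y)) := by
    intro z x y hz hx hy hck hpc
    obtain ⟨e1, e2, e3⟩ := chkSt1_spec hck hx hy
    rcases e3 with ⟨rfl, e4⟩ | ⟨rfl, e4⟩
    · have hok' : okT (dst (r % 26)) x y = true := okT_dst hr26 hx hy e1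
      have hpp : parP p = T (dst (r % 26)) x y := by
        unfold parP
        rw [hpar, hpc, e4, ofCode_scode hok']
      refine ⟨?_, r % 26, x, y, hr26, hx, hy, e1, e2, Or.inl ⟨hz.symm, hpp⟩⟩
      rw [hpp, scP_T hok', hsc, ← e4, ← hpc]
      exact hlt
    · have hok' : okT (src (r % 26)) x y = true := (okT_src hr26).2 ⟨hx, hy, e1⟩
      have hpp : parP p = T (src (r % 26)) x y := by
        unfold parP
        rw [hpar, hpc, e4, ofCode_scode hok']
      refine ⟨?_, r % 26, x, y, hr26, hx, hy, e1, e2, Or.inr ⟨hz.symm, hpp⟩⟩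
      rw [hpp, scP_T hok', hsc, ← e4, ← hpc]
      exact hlt
  unfold chkSt2 at hchk
  unfold pcode at hlt hpar main
  cases k2 : Nat.beq (r / 26 % 3) 0 with
  | true =>
    rw [k2] at hchk main
    simp only [cond_true] at hchk main
    exact main a b c hT hb hc hchk rfl
  | false =>
  rw [k2] at hchk main
  simp only [cond_false] at hchk main
  cases k3 : Nat.beq (r / 26 % 3) 1 with
  | true =>
    rw [k3] at hchk main
    simp only [cond_true] at hchk main
    exact main b a c (by rw [T_swap01, hT]) ha hc hchk rfl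
  | false =>
    rw [k3] at hchk main
    simp only [cond_false] at hchk main
    exact main c a b (by rw [T_rot, hT]) ha hb hchk rfl

theorem scode_swap12 (a b c : ℕ) : scode a c b = scode a b c := by
  rw [scode_eq, scode_eq]
  have h1 : min a (min c b) = min a (min b c) := by omega
  have h2 : max a (max c b) = max a (max b c) := by omega
  have h3 : a + c + b = a + b + c := by omega
  rw [h1, h2, h3]

/-- Every tree move joins a stratum and its parent. -/
theorem tree_spec {h b c : ℕ} (hh : h < 26) (hb : b < 23) (hc : c < 23) (hv : vm h b c = true)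
    (hr : rea h b c = 0) :
    (T (src h) b c ≠ rootP ∧ parP (T (src h) b c) = T (dst h) b c) ∨
    (T (dst h) b c ≠ rootP ∧ parP (T (dst h) b c) = T (src h) b c) := by
  have ok1 : okT (src h) b c = true := (okT_src hh).2 ⟨hb, hc, hv⟩
  have ok2 : okT (dst h) b c = true := okT_dst hh hb hc hv
  have hroot : scP rootP = rootCode := by
    have : rootP = T 4 9 16 := rfl
    rw [this, scP_T (by decide)]
    decide
  -- the table check, for unordered `b, c`
  have key : (scode (src h) b c ≠ rootCode ∧ parOf (scode (src h) b c) = scode (dst h) b c) ∨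
      (scode (dst h) b c ≠ rootCode ∧ parOf (scode (dst h) b c) = scode (src h) b c) := by
    have aux : ∀ b c, b ≤ c → c < 23 → vm h b c = true → rea h b c = 0 →
        (scode (src h) b c ≠ rootCode ∧ parOf (scode (src h) b c) = scode (dst h) b c) ∨
        (scode (dst h) b c ≠ rootCode ∧ parOf (scode (dst h) b c) = scode (src h) b c) := by
      intro b c hbc hc hv hr
      have hck : chkTree h b c = true :=
        allB_spec (allB_spec (allB_spec all_tree h hh) c hc) b (by omega)
      unfold chkTree at hck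
      rw [hv, beqT.2 hr] at hck
      simp only [cond_true] at hck
      cases k1 : (bif Nat.beq (scode (src h) b c) rootCode then false else
        Nat.beq (parOf (scode (src h) b c)) (scode (dst h) b c)) with
      | true =>
        left
        cases k2 : Nat.beq (scode (src h) b c) rootCode with
        | true => rw [k2] at k1; simp at k1
        | false =>
          rw [k2] at k1
          exact ⟨beqF.1 k2, beqT.1 k1⟩
      | false =>
        rw [k1] at hck
        simp only [cond_false] at hck
        right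
        cases k2 : Nat.beq (scode (dst h) b c) rootCode with
        | true => rw [k2] at hck; simp at hck
        | false =>
          rw [k2] at hck
          exact ⟨beqF.1 k2, beqT.1 hck⟩
    rcases le_total b c with hbc | hbc
    · exact aux b c hbc hc hv hr
    · have := aux c b hbc hb ((vm_comm _ _ _).1 hv) (by rw [rea_comm]; exact hr)
      rw [scode_swap12 (src h) b c, scode_swap12 (dst h) b c] at this
      exact this
  rcases key with ⟨k1, k2⟩ | ⟨k1, k2⟩
  · left
    refine ⟨fun e => k1 ?_, ?_⟩
    · rw [← scP_T ok1, e, hroot]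
    · unfold parP
      rw [scP_T ok1, k2, ofCode_scode ok2]
  · right
    refine ⟨fun e => k1 ?_, ?_⟩
    · rw [← scP_T ok2, e, hroot]
    · unfold parP
      rw [scP_T ok2, k2, ofCode_scode ok1]

/-! ### Potentials on a rooted tree -/

theorem exists_potential {α : Type*} {Q : Type*} [Group Q] (root : α) (par : α → α) (d : α → ℕ)
    (hd : ∀ x, x ≠ root → d (par x) < d x) (s : α → Q) :
    ∃ u : α → Q, u root = 1 ∧ ∀ x, x ≠ root → u x = u (par x) * s x := by
  classical
  let F : ∀ x : α, (∀ y : α, InvImage (· < ·) d y x → Q) → Q := fun x f =>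
    if h : x ≠ root then f (par x) (hd x h) * s x else 1
  let u : α → Q := WellFounded.fix (InvImage.wf d (Nat.lt_wfRel.wf)) F
  have hu : ∀ x, u x = F x fun y _ => u y := fun x =>
    WellFounded.fix_eq (InvImage.wf d (Nat.lt_wfRel.wf)) F x
  refine ⟨u, ?_, fun x hx => ?_⟩
  · rw [hu root]
    simp [F]
  · rw [hu x]
    simp only [F, dif_pos hx]

end Pool.Agent.MP_340815_al.Cert
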