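import Pool.Agent.Lib.MP_340815_al.H64.Gauge
import Pool.Agent.Lib.MP_340815_al.H45.Assembly

/-!
# MP_340815_al: the combinatorial module M3
-/

set_option autoImplicit false

namespace Pool.Agent.MP_340815_al.Cert

open Pool.Agent.MP_340815_al Pool.Agent.MP_340815_al.H75

/-! ### The two commutation tables agree -/

theorem raagC_commD {i j : ℕ} (h : raagC i j = true) : i = j ∨ commD i j = true := by
  have key : allB (fun i => allB (fun j => bif raagC i j then
      (bif Nat.beq i j then true else commD i j) else true) 10) 10 = true := by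
    decide +kernel
  have hi : i < 10 := by
    unfold raagC at h
    cases h1 : Nat.ble i 9 with
    | false => rw [h1] at h; simp at h
    | true => have := bleT.1 h1; omega
  have hj : j < 10 := by
    unfold raagC at h
    cases h1 : Nat.ble i 9 with
    | false => rw [h1] at h; simp at h
    | true =>
      cases h2 : Nat.ble j 9 with
      | false => rw [h1, h2] at h; simp at h
      | true => have := bleT.1 h2; omega
  have := allB_spec (allB_spec key i hi) j hj
  simp only [h, cond_true] at this
  cases h1 : Nat.beq i j with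
  | true => exact Or.inl (beqT.1 h1)
  | false => rw [h1] at this; exact Or.inr this

theorem pairs_raagC : ∀ p ∈ pairs, raagC p.1 p.2 = true := by decide

theorem comm_raagC_genD : Comm raagC genD := by
  intro i j h
  rcases raagC_commD h with rfl | h
  · exact Commute.refl _
  · exact genD_comm i j h

/-! ### The labels -/

/-- the label of a single move -/
def labD (a b c d : ℕ) : Raag Delta := ev genD (lw (hOf a b) c d)

theorem labD_symm (a b c d : ℕ) : labD a b c d = labD a b d c := by
  unfold labD; rw [lw_comm]

theorem vs_of_ok {a b c d x : ℕ} (hab : mv a b = true) (hcd : mv c d = true)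
    (hok : okT a c x = true) : src (hOf a b) ≠ src (hOf c d) ∧ x ≠ src (hOf a b) ∧
      x ≠ src (hOf c d) := by
  obtain ⟨-, h1, -⟩ := hOf_spec hab
  obtain ⟨-, h2, -⟩ := hOf_spec hcd
  obtain ⟨m1, -⟩ := mv_lt hab
  obtain ⟨m2, -⟩ := mv_lt hcd
  obtain ⟨-, -, -, h3, h4, h5⟩ := (okT_iff _ _ _).1 hok
  rw [h1, h2]
  exact ⟨by omega, by omega, by omega⟩

theorem labD_sq (a b c d x : ℕ) (hab : mv a b = true) (hcd : mv c d = true)
    (hok : okT a c x = true) :
    labD a b c x * labD c d b x = labD c d a x * labD a b d x := by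
  obtain ⟨v1, v2, v3⟩ := vs_of_ok hab hcd hok
  obtain ⟨h1, h2, h3⟩ := hOf_spec hab
  obtain ⟨k1, k2, k3⟩ := hOf_spec hcd
  obtain ⟨-, -, hx, -⟩ := (okT_iff _ _ _).1 hok
  have hck := chkSq_all (hOf a b) (hOf c d) x h1 k1 hx
  unfold chkSq at hck
  rw [(vs_iff _ _ _).2 ⟨v1, v2, v3⟩] at hck
  simp only [cond_true] at hck
  have he := eqW_sound comm_raagC_genD hck
  unfold sqL sqR at he
  rw [ev_append, ev_append, h2, h3, k2, k3] at he
  exact he

/-- The system of values of a normalised cocycle. -/
theorem sys_of_cocycle {K : Type*} [Group K] (h : UType Gam 3 → UType Gam 3 → K)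
    (hh : ∀ p q r, p ≤ q → q ≤ r → h p q * h q r = h p r)
    (htree : ∀ j b c, j < 26 → b < 23 → c < 23 → vm j b c = true → rea j b c = 0 →
      h (T (src j) b c) (T (dst j) b c) = 1) :
    Sys (fun j b c => h (T (src j) b c) (T (dst j) b c)) where
  symm j b c := by
    rw [T_swap12 (src j) b c, T_swap12 (dst j) b c]
  sq := by
    intro j k y hj hk hy v1 v2 v3
    have sj := src_lt j hj
    have sk := src_lt k hk
    have dj := dst_ge j
    have dk := dst_ge k
    have dj' := dst_lt j hj
    have dk' := dst_lt k hk
    have o0 : okT (src j) (src k) y = true :=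
      (okT_src hj).2 ⟨by omega, hy, (vm_iff _ _ _).2 ⟨fun e => v1 e.symm, v2, fun e => absurd e.symm v3⟩⟩
    have o1 : okT (dst j) (src k) y = true := okT_mv o0 (Or.inr (mv_src_dst hj))
    have o1' : okT (src k) (dst j) y = true := by rw [okT_swap01]; exact o1
    have o2' : okT (dst k) (dst j) y = true := okT_mv o1' (Or.inr (mv_src_dst hk))
    have o2 : okT (dst j) (dst k) y = true := by rw [okT_swap01]; exact o2'
    have o3' : okT (src k) (src j) y = true := by rw [okT_swap01]; exact o0
    have o4' : okT (dst k) (src j) y = true := okT_mv o3' (Or.inr (mv_src_dst hk))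
    have o4 : okT (src j) (dst k) y = true := by rw [okT_swap01]; exact o4'
    have m1 : T (src j) (src k) y ≤ T (dst j) (src k) y :=
      T_le o0 o1 (Or.inr (mv_src_dst hj)) (Or.inl rfl) (Or.inl rfl)
    have m2 : T (dst j) (src k) y ≤ T (dst j) (dst k) y :=
      T_le o1 o2 (Or.inl rfl) (Or.inr (mv_src_dst hk)) (Or.inl rfl)
    have m3 : T (src j) (src k) y ≤ T (src j) (dst k) y :=
      T_le o0 o4 (Or.inl rfl) (Or.inr (mv_src_dst hk)) (Or.inl rfl)
    have m4 : T (src j) (dst k) y ≤ T (dst j) (dst k) y :=
      T_le o4 o2 (Or.inr (mv_src_dst hj)) (Or.inl rfl) (Or.inl rfl)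
    rw [T_swap01 (dst j) (src k) y, T_swap01 (dst j) (dst k) y, T_swap01 (src j) (src k) y,
      T_swap01 (src j) (dst k) y, hh _ _ _ m1 m2, hh _ _ _ m3 m4]
  tree := htree

/-- For every cocycle there is a gauge transformation trivialising it on the tree moves. -/
theorem exists_gauge {K : Type*} [Group K] (h : UType Gam 3 → UType Gam 3 → K)
    (hh : ∀ p q r, p ≤ q → q ≤ r → h p q * h q r = h p r) :
    ∃ u : UType Gam 3 → K, ∀ j b c, j < 26 → b < 23 → c < 23 → vm j b c = true →
      rea j b c = 0 → u (T (src j) b c) * h (T (src j) b c) (T (dst j) b c) *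
        (u (T (dst j) b c))⁻¹ = 1 := by
  classical
  let step : UType Gam 3 → UType Gam 3 → K := fun p q => if p ≤ q then h p q else (h q p)⁻¹
  have hstep1 : ∀ p q, p ≤ q → step p q = h p q := fun p q hpq => if_pos hpq
  have hstep2 : ∀ p q, p ≤ q → step q p = (h p q)⁻¹ := by
    intro p q hpq
    by_cases hqp : q ≤ p
    · rw [hstep1 q p hqp]
      have h1 := hh p q p hpq hqp
      rw [cocycle_refl h hh] at h1
      exact eq_inv_of_mul_eq_one_right h1
    · exact if_neg hqp
  obtain ⟨u, -, hu⟩ := exists_potential (Q := K) rootP parP (fun p => dep (scP p))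
    (fun x hx => (parP_spec x hx).1) (fun x => step (parP x) x)
  refine ⟨u, fun j b c hj hb hc hv hr => ?_⟩
  have o1 : okT (src j) b c = true := (okT_src hj).2 ⟨hb, hc, hv⟩
  have o2 : okT (dst j) b c = true := okT_dst hj hb hc hv
  have hle : T (src j) b c ≤ T (dst j) b c :=
    T_le o1 o2 (Or.inr (mv_src_dst hj)) (Or.inl rfl) (Or.inl rfl)
  rcases tree_spec hj hb hc hv hr with ⟨h1, h2⟩ | ⟨h1, h2⟩
  · have := hu _ h1
    rw [h2, hstep2 _ _ hle] at this
    rw [this]
    group
  · have := hu _ h1
    rw [h2, hstep1 _ _ hle] at this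
    rw [this]
    group

theorem byte_lt (T k : ℕ) : byte T k < 256 :=
  lt_of_le_of_lt Nat.and_le_right (by norm_num)

/-- **Module M3.** -/
theorem m3Statement : M3Statement := by
  obtain ⟨g, hg, hgl⟩ := exists_cocycle labD labD_symm labD_sq
  have hgl' : ∀ j b c, j < 26 → b < 23 → c < 23 → vm j b c = true →
      g (T (src j) b c) (T (dst j) b c) = ev genD (lw j b c) := by
    intro j b c hj hb hc hv
    rw [hgl _ _ _ _ (mv_src_dst hj) ((okT_src hj).2 ⟨hb, hc, hv⟩)]
    unfold labD
    rw [hOf_src_dst hj]
  have hle' : ∀ j b c, j < 26 → b < 23 → c < 23 → vm j b c = true →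
      T (src j) b c ≤ T (dst j) b c := fun j b c hj hb hc hv =>
    T_le ((okT_src hj).2 ⟨hb, hc, hv⟩) (okT_dst hj hb hc hv) (Or.inr (mv_src_dst hj))
      (Or.inl rfl) (Or.inl rfl)
  have htriv : ∀ j b c, j < 26 → b < 23 → c < 23 → vm j b c = true → rea j b c = 0 →
      lw j b c = [] := by
    have aux : ∀ j b c, j < 26 → b ≤ c → c < 23 → vm j b c = true → rea j b c = 0 →
        lw j b c = [] := by
      intro j b c hj hbc hc hv hr
      have hm := chkMove_all j b c hj hbc hc
      unfold chkMove at hm
      rw [hv, beqT.2 hr] at hm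
      simp only [cond_true] at hm
      exact labn_word_zero (beqT.1 hm)
    intro j b c hj hb hc hv hr
    rcases le_total b c with hbc | hbc
    · exact aux j b c hj hbc hc hv hr
    · rw [lw_comm]
      exact aux j c b hj hbc hb ((vm_comm _ _ _).1 hv) (by rw [rea_comm]; exact hr)
  refine ⟨Fin 10, inferInstance, Delta, Delta_connected, Delta_not_cyclic, g, hg,
    ⟨rootP, ?_⟩, ?_, ?_⟩
  · -- connectedness through trivial labels
    intro p
    generalize hd : dep (scP p) = D
    induction D using Nat.strong_induction_on generalizing p with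
    | _ D ih =>
    by_cases hp : p = rootP
    · rw [hp]; exact Relation.EqvGen.refl _
    · obtain ⟨h1, j, x, y, hj, hx, hy, hv, hr, h2⟩ := parP_spec p hp
      refine Relation.EqvGen.trans _ _ _ (ih _ (hd ▸ h1) (parP p) rfl) ?_
      have hone : g (T (src j) x y) (T (dst j) x y) = 1 := by
        rw [hgl' j x y hj hx hy hv, htriv j x y hj hx hy hv hr, ev_nil]
      rcases h2 with ⟨e1, e2⟩ | ⟨e1, e2⟩
      · rw [e1, ← e1, e2]
        refine Relation.EqvGen.symm _ _ (Relation.EqvGen.rel _ _ ?_)
        rw [e1]
        exact ⟨hle' j x y hj hx hy hv, hone⟩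
      · rw [e2]
        refine Relation.EqvGen.rel _ _ ?_
        rw [e1]
        exact ⟨hle' j x y hj hx hy hv, hone⟩
  · -- the values of `g` generate
    rw [eq_top_iff, ← genD_closure, Subgroup.closure_le]
    rintro _ ⟨i, rfl⟩
    by_cases hi : i < 10
    · have key : allB (fun i => bif Nat.blt (gh i) 26 then bif Nat.blt (gb i) 23 then
          bif Nat.blt (gc i) 23 then bif vm (gh i) (gb i) (gc i) then
            isLet (2 * i) (lw (gh i) (gb i) (gc i)) else false else false else false
          else false) 10 = true := by decide +kernel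
      have hk := allB_spec key i hi
      cases k1 : Nat.blt (gh i) 26 with
      | false => rw [k1] at hk; simp at hk
      | true =>
      cases k2 : Nat.blt (gb i) 23 with
      | false => rw [k1, k2] at hk; simp at hk
      | true =>
      cases k3 : Nat.blt (gc i) 23 with
      | false => rw [k1, k2, k3] at hk; simp at hk
      | true =>
      cases k4 : vm (gh i) (gb i) (gc i) with
      | false => rw [k1, k2, k3, k4] at hk; simp at hk
      | true =>
      rw [k1, k2, k3, k4] at hk
      simp only [cond_true] at hk
      have l1 : gh i < 26 := by simpa [Nat.blt] using k1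
      have l2 : gb i < 23 := by simpa [Nat.blt] using k2
      have l3 : gc i < 23 := by simpa [Nat.blt] using k3
      apply Subgroup.subset_closure
      refine ⟨_, _, hle' _ _ _ l1 l2 l3 k4, ?_⟩
      rw [hgl' _ _ _ l1 l2 l3 k4, isLet_iff hk, ev_cons, ev_nil, mul_one, letter_even]
    · have : genD i = 1 := by unfold genD; rw [dif_neg hi]
      rw [this]
      exact one_mem _
  · -- the universal property
    intro K _ h hh
    obtain ⟨u, hu⟩ := exists_gauge h hh
    let h' : UType Gam 3 → UType Gam 3 → K := fun p q => u p * h p q * (u q)⁻¹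
    have hh' : ∀ p q r, p ≤ q → q ≤ r → h' p q * h' q r = h' p r := by
      intro p q r hpq hqr
      simp only [h']
      rw [← hh p q r hpq hqr]
      group
    have S := sys_of_cocycle h' hh' hu
    let H : ℕ → ℕ → ℕ → K := fun j b c => h' (T (src j) b c) (T (dst j) b c)
    let x : ℕ → K := fun i => if i < 10 then gam H i else 1
    have hxc : Comm commD x := by
      apply comm_of_pairs
      intro p hp
      have h1 := S.comm _ _ (pairs_raagC p hp)
      have hlt : ∀ p ∈ pairs, p.1 < 10 ∧ p.2 < 10 := by decide
      obtain ⟨p1, p2⟩ := hlt p hp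
      simp only [x, if_pos p1, if_pos p2]
      exact h1
    obtain ⟨φ, hφ⟩ := exists_hom x hxc (fun i hi => if_neg (by omega))
    refine ⟨u, φ, fun p q hpq => ?_⟩
    -- letters of the words are below 20
    have hw : ∀ j b c, j < 26 → b < 23 → c < 23 → vm j b c = true →
        ev x (lw j b c) = ev (gam H) (lw j b c) := by
      intro j b c _ _ _ _
      have key : allB (fun k => (word k).all (fun l => Nat.blt (l / 2) 10)) 256 = true := by
        decide +kernel
      have hlt : labn j b c < 256 := byte_lt _ _
      have hall := allB_spec key _ hlt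
      have haux : ∀ w : List ℕ, w.all (fun l => Nat.blt (l / 2) 10) = true →
          ev x w = ev (gam H) w := by
        intro w
        induction w with
        | nil => intro _; rfl
        | cons l w ih =>
          intro hw
          rw [List.all_cons, Bool.and_eq_true] at hw
          have hl : l / 2 < 10 := by simpa [Nat.blt] using hw.1
          have hle : letter x l = letter (gam H) l := by
            unfold letter
            simp only [x, if_pos hl]
          rw [ev_cons, ev_cons, ih hw.2, hle]
      exact haux _ hall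
    have hgφ : ∀ p q r, p ≤ q → q ≤ r → φ (g p q) * φ (g q r) = φ (g p r) := by
      intro p q r h1 h2
      rw [← map_mul, hg p q r h1 h2]
    have hext := cocycle_ext (fun p q => φ (g p q)) h' hgφ hh' (by
      intro a b c d hab hok
      obtain ⟨j1, j2, j3⟩ := hOf_spec hab
      obtain ⟨-, hc, hd, -⟩ := (okT_iff _ _ _).1 hok
      have hv : vm (hOf a b) c d = true := by
        rw [← j2] at hok
        exact ((okT_src j1).1 hok).2.2
      have e1 := hgl' _ _ _ j1 hc hd hv
      have e2 := S.eq_ev _ _ _ j1 hc hd hv
      rw [j2, j3] at e1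
      simp only [j2, j3] at e2
      show φ (g (T a c d) (T b c d)) = _
      rw [e1, ev_map_hom, e2]
      have : (fun i => φ (genD i)) = x := funext hφ
      rw [this]
      exact hw _ _ _ j1 hc hd hv) p q hpq
    have hext' : φ (g p q) = u p * h p q * (u q)⁻¹ := hext
    rw [hext']
    group

end Pool.Agent.MP_340815_al.Cert
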